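import Mathlib

/-!
# Smooth closed surfaces in a projective space, in terms of their cones

`V` is a finite dimensional complex normed space; a closed subset of `ℙ(V)` is given by its cone `X ⊆ V ∖ {0}`.
-/

open Topology Filter

noncomputable section

namespace Pool.Agent.H17BP

variable {V : Type} [NormedAddCommGroup V] [NormedSpace ℂ V]

/-- The germ `σ : (ℂ², 0) → X` parametrises the surface given by the cone `X`, with the inverse `τ`. -/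
structure IsChart (X : Set V) (σ : ℂ × ℂ → V) (τ : V → ℂ × ℂ) : Prop where
  σ_an : AnalyticAt ℂ σ 0
  σ_mem : ∀ᶠ p in 𝓝 (0 : ℂ × ℂ), σ p ∈ X
  ne : σ 0 ≠ 0
  τ_an : AnalyticAt ℂ τ (σ 0)
  left : ∀ᶠ p in 𝓝 (0 : ℂ × ℂ), τ (σ p) = p
  right : ∀ᶠ y in 𝓝 (σ 0), y ∈ X → ∃ c : ℂ, c ≠ 0 ∧ y = c • σ (τ y)
  inv : ∀ᶠ p in 𝓝 (σ 0, (1 : ℂ)), τ (p.2 • p.1) = τ p.1

/-- `X` is the cone of a smooth closed surface in `ℙ(V)`. -/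
structure Surface (X : Set V) : Prop where
  zero : (0 : V) ∉ X
  smul : ∀ x ∈ X, ∀ c : ℂ, c ≠ 0 → c • x ∈ X
  closed : ∀ x ∈ closure X, x ≠ 0 → x ∈ X
  chart : ∀ x ∈ X, ∃ σ τ, IsChart X σ τ ∧ σ 0 = x

/-- The tangent vectors of the cone `X` at `x`. -/
def Tan (X : Set V) (x : V) : Set V :=
  {v | ∃ γ : ℂ → V, AnalyticAt ℂ γ 0 ∧ (∀ᶠ z in 𝓝 (0 : ℂ), γ z ∈ X) ∧ γ 0 = x ∧ deriv γ 0 = v}

/-- `Ω` is a holomorphic section of `m K_X - j H`. -/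
structure IsForm (X : Set V) (m j : ℕ) (Ω : V → V → V → ℂ) : Prop where
  add_smul : ∀ x ∈ X, ∀ v ∈ Tan X x, ∀ w ∈ Tan X x, ∀ a b : ℂ, Ω x (v + a • x) (w + b • x) = Ω x v w
  det : ∀ x ∈ X, ∀ v ∈ Tan X x, ∀ w ∈ Tan X x, ∀ a b c d : ℂ,
    Ω x (a • v + b • w) (c • v + d • w) = (a * d - b * c) ^ m * Ω x v w
  scale : ∀ x ∈ X, ∀ v ∈ Tan X x, ∀ w ∈ Tan X x, ∀ c : ℂ, c ≠ 0 →
    c ^ j * Ω (c • x) (c • v) (c • w) = Ω x v w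
  analytic : ∀ (φ : ℂ × ℂ → V) (p : ℂ × ℂ), AnalyticAt ℂ φ p → (∀ᶠ y in 𝓝 p, φ y ∈ X) →
    AnalyticAt ℂ (fun y => Ω (φ y) (fderiv ℂ φ y (1, 0)) (fderiv ℂ φ y (0, 1))) p

/-- The form `Ω` has no zeros outside `B`. -/
def NoZeros (X B : Set V) (Ω : V → V → V → ℂ) : Prop :=
  ∀ x ∈ X, x ∉ B → ∀ v ∈ Tan X x, ∀ w ∈ Tan X x, LinearIndependent ℂ ![x, v, w] → Ω x v w ≠ 0

/-- The subset `B` of the surface `X` is given near `σ 0` by the equation `g = 0`. -/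
def LocalEq (B : Set V) (σ : ℂ × ℂ → V) (g : ℂ × ℂ → ℂ) : Prop :=
  AnalyticAt ℂ g 0 ∧ ∀ᶠ p in 𝓝 (0 : ℂ × ℂ), (σ p ∈ B ↔ g p = 0)

end Pool.Agent.H17BP
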